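import Pool.Agent.Run7.h494.Dich

set_option autoImplicit false

namespace Run7.h494.Old.DichotomyFive

open Run7.h494

/-- Either the Poljak-Rodl function is bounded by `5`, or it tends to infinity. -/
theorem result :
    (∀ n : ℕ, polRod n ≤ 5) ∨ Filter.Tendsto polRod Filter.atTop Filter.atTop :=
  dichotomy

end Run7.h494.Old.DichotomyFive
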