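import Pool.Agent.Run7.h494.F5Local
import Pool.Agent.Run7.h494.Net

set_option autoImplicit false

namespace Run7.h494.Old.SixFour

open Run7.h494

/-- `f(6) ≤ 4` for the Poljak-Rodl function `f`, and more: for every `n` there are finite graphs `G`
and `H` with chromatic numbers at least `6` and at least `n` whose product is `4`-colourable. -/
theorem result :
    (∀ n : ℕ, ∃ (V W : Type) (_ : Fintype V) (_ : Fintype W) (G : SimpleGraph V)
      (H : SimpleGraph W), (6 : ℕ∞) ≤ G.chromaticNumber ∧ (n : ℕ∞) ≤ H.chromaticNumber ∧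
        (tprod G H).Colorable 4) ∧ polRod 6 ≤ 4 := by
  have h : ∀ n : ℕ, ∃ (V W : Type) (_ : Fintype V) (_ : Fintype W) (G : SimpleGraph V)
      (H : SimpleGraph W), (6 : ℕ∞) ≤ G.chromaticNumber ∧ (n : ℕ∞) ≤ H.chromaticNumber ∧
        (tprod G H).Colorable 4 := fun n => pair_of_preserved Fin5.preserved45 n
  refine ⟨h, ?_⟩
  rw [polRod_le_iff]
  obtain ⟨V, W, iV, iW, G, H, h1, h2, h3⟩ := h 6
  exact ⟨V, W, iV, iW, G, H, h1, h2, h3⟩

end Run7.h494.Old.SixFour
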